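import Mathlib
import Pool.Agent.H35.HamDefs
import Pool.Agent.H35.HamProof

set_option autoImplicit false

namespace Pool.Agent.Results.MP_9038fc_co.Gap

open Pool.Agent.H35.Ham

/-- `h_o(7) = 24`, and the values `h ≤ h_o(7)` realised by no 7-tournament are exactly
16 and 18, ..., 23. -/
theorem result : ho 7 = 24 ∧ ∀ h ≤ ho 7,
    ((¬ ∃ T : Fin 7 → Fin 7 → Prop, IsTour T ∧ hc T = h) ↔ (h = 16 ∨ (18 ≤ h ∧ h ≤ 23))) := by
  have e : ho 7 = 24 := by
    apply IsGreatest.csSup_eq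
    refine ⟨(spec 24).2 (by omega), fun h hh => ?_⟩
    have := (spec h).1 hh
    omega
  refine ⟨e, fun h hh => ?_⟩
  rw [spec]
  omega

end Pool.Agent.Results.MP_9038fc_co.Gap
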